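import Pool.Agent.Q330.LRT.Core

/-!
# Log-rank and decision trees with nested tests

A nested test of a pair `(x, y)` is a Boolean matrix whose rows form a chain, for instance a
comparison `a x ≤ b y` (the greater-than function), or a bit sent by one of the players. The second
kind of tests are adjacencies in a graph of bounded twin-width. The tests of a tree may all be
different, and the matrices of the tests may have any rank.

The theorem: a matrix `F` of real rank `r` which is computed by a decision tree of cost `κ` with such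
tests has a deterministic protocol with `O ((κ + log r) log r)` bits. So the log-rank conjecture is
equivalent to the statement that every Boolean matrix has such a tree of cost polylogarithmic in the
rank.

Idea of the proof. A nested matrix is constant on the product of at least half of any given rows
and at least half of any given columns (consider a median row). Follow a branch of the tree: every
rectangle contains a rectangle with at least the part `2 ^ (-κ)` of the rows and of the columns on
which `F` is constant. The recursion of Nisan and Wigderson gives the protocol.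
-/

set_option autoImplicit false

namespace Pool.Agent.Results.MP_e5d384_lc.NestedTests

open Pool.Agent.H630R2.LR Pool.Agent.Q330.LRT

/-- The log-rank conjecture: every Boolean matrix of rank `r` has a protocol with at most
`⌈log₂ (r + 2)⌉ ^ C` bits. -/
def LogRank : Prop :=
  ∃ C : ℕ, ∀ (X Y : Type) [Fintype X] [Fintype Y] (F : X → Y → Bool),
    ∃ c ≤ Nat.clog 2 ((comm F).rank + 2) ^ C, Proto F c

/-- Every Boolean matrix of rank `r` has a decision tree of cost at most `⌈log₂ (r + 2)⌉ ^ C`. -/
def TreeLogRank : Prop :=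
  ∃ C : ℕ, ∀ (X Y : Type) [Fintype X] [Fintype Y] (F : X → Y → Bool),
    Decides (Nat.clog 2 ((comm F).rank + 2) ^ C) F

theorem arith (r C : ℕ) :
    1 + 2 * Nat.clog 2 (2 ^ (Nat.clog 2 (r + 2) ^ C + 1) * r + 3) * Nat.clog 2 (r + 1) ≤
      Nat.clog 2 (r + 2) ^ (C + 5) := by
  obtain ⟨L, hL⟩ : ∃ L, L = Nat.clog 2 (r + 2) := ⟨_, rfl⟩
  have h1 : r + 2 ≤ 2 ^ L := hL ▸ Nat.le_pow_clog (by norm_num) _
  have h2 : Nat.clog 2 (r + 1) ≤ L := by
    rw [hL]
    exact Nat.clog_mono_right 2 (by omega)
  rw [← hL]
  rcases Nat.eq_zero_or_pos r with h0 | hr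
  · have e1 : Nat.clog 2 (r + 1) = 0 := by rw [h0]; exact Nat.clog_one_right 2
    rw [e1, mul_zero, add_zero]
    have hL1 : 1 ≤ L := by
      rcases Nat.eq_zero_or_pos L with h | h
      · rw [h, pow_zero] at h1
        omega
      · exact h
    exact Nat.one_le_pow _ _ hL1
  · have hL2 : 2 ≤ L := by
      by_contra hcon
      have : L ≤ 1 := by omega
      have h3 : 2 ^ L ≤ 2 ^ 1 := Nat.pow_le_pow_right (by norm_num) this
      omega
    have h4 : Nat.clog 2 (2 ^ (L ^ C + 1) * r + 3) ≤ L ^ C + 1 + L := by
      refine Nat.clog_le_of_le_pow ?_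
      have h5 : 2 ≤ 2 ^ (L ^ C + 1) := by
        calc 2 = 2 ^ 1 := rfl
          _ ≤ 2 ^ (L ^ C + 1) := Nat.pow_le_pow_right (by norm_num) (Nat.le_add_left _ _)
      calc 2 ^ (L ^ C + 1) * r + 3 ≤ 2 ^ (L ^ C + 1) * (r + 2) := by nlinarith
        _ ≤ 2 ^ (L ^ C + 1) * 2 ^ L := Nat.mul_le_mul_left _ h1
        _ = 2 ^ (L ^ C + 1 + L) := (pow_add _ _ _).symm
    have h6 : 1 ≤ L ^ C := Nat.one_le_pow _ _ (by omega)
    have h7 : L ^ C + 1 + L ≤ 3 * L ^ (C + 1) := by
      rw [pow_succ]
      nlinarith
    have h8 : 1 ≤ L ^ (C + 2) := Nat.one_le_pow _ _ (by omega)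
    have h9 : 2 ^ 3 ≤ L ^ 3 := Nat.pow_le_pow_left hL2 3
    calc 1 + 2 * Nat.clog 2 (2 ^ (L ^ C + 1) * r + 3) * Nat.clog 2 (r + 1)
        ≤ 1 + 2 * (3 * L ^ (C + 1)) * L :=
          Nat.add_le_add_left (Nat.mul_le_mul (Nat.mul_le_mul_left 2 (h4.trans h7)) h2) 1
      _ = 1 + 6 * L ^ (C + 2) := by ring
      _ ≤ 2 ^ 3 * L ^ (C + 2) := by omega
      _ ≤ L ^ 3 * L ^ (C + 2) := Nat.mul_le_mul_right _ h9
      _ = L ^ (C + 5) := by ring

/-- `r` is the real rank of a Boolean matrix.
(1) A matrix which is computed by a decision tree of cost `κ` with nested tests and tests of bounded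
twin-width has a protocol with `1 + 2 ⌈log₂ (2 ^ (κ + 1) r + 3)⌉ ⌈log₂ (r + 1)⌉` bits.
(2) In particular, so has, with `κ = t`, every Boolean function of `t` comparisons `a i x ≤ b i y` of
elements of a linear order.
(3) The log-rank conjecture is equivalent to the statement that there are decision trees of cost
polylogarithmic in the rank. -/
theorem result :
    (∀ (X Y : Type) [Fintype X] [Fintype Y] (κ : ℕ) (F : X → Y → Bool), Decides κ F →
      Proto F (1 + 2 * Nat.clog 2 (2 ^ (κ + 1) * (comm F).rank + 3) *
        Nat.clog 2 ((comm F).rank + 1))) ∧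
    (∀ (X Y L : Type) [Fintype X] [Fintype Y] [LinearOrder L] (t : ℕ) (a : Fin t → X → L)
      (b : Fin t → Y → L) (h : (Fin t → Bool) → Bool) (F : X → Y → Bool),
      (∀ x y, F x y = h fun i => decide (a i x ≤ b i y)) →
      Proto F (1 + 2 * Nat.clog 2 (2 ^ (t + 1) * (comm F).rank + 3) *
        Nat.clog 2 ((comm F).rank + 1))) ∧
    (LogRank ↔ TreeLogRank) := by
  refine ⟨fun X Y _ _ κ F h => proto_tree h, ?_, ?_, ?_⟩
  · intro X Y L _ _ _ t a b h F hF
    have hn : ∀ i, Nested fun x y => decide (a i x ≤ b i y) := by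
      intro i x x'
      rcases le_total (a i x) (a i x') with h1 | h1
      · right
        intro y hy
        exact decide_eq_true (h1.trans (of_decide_eq_true hy))
      · left
        intro y hy
        exact decide_eq_true (h1.trans (of_decide_eq_true hy))
    have h1 := decides_comb t (fun i x y => decide (a i x ≤ b i y)) hn h
    have e : F = fun x y => h fun i => decide (a i x ≤ b i y) := by
      funext x y
      exact hF x y
    rw [← e] at h1
    exact proto_tree h1
  · rintro ⟨C, hC⟩
    refine ⟨C, fun X Y _ _ F => ?_⟩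
    obtain ⟨c, hc, hF⟩ := hC X Y F
    exact decides_mono (decides_of_proto hF) hc
  · rintro ⟨C, hC⟩
    refine ⟨C + 5, fun X Y _ _ F => ?_⟩
    exact ⟨_, arith _ _, proto_tree (hC X Y F)⟩

end Pool.Agent.Results.MP_e5d384_lc.NestedTests
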