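import Mathlib
import Pool.Agent.Q330.LRM.Orb

/-!
# The log-rank conjecture for Boolean matrices and the sizes of the orbits of their symmetries

A symmetry of a Boolean matrix `F` is a pair of permutations (one of the rows, one of the columns)
which preserves `F`.  All primes which divide the order of a group of symmetries of a Boolean matrix
of real rank `r` without repeated rows and columns are at most `r + 1`.  Hence the log-rank
conjecture holds, with exponent one, for the matrices whose rows (or whose ones) form few orbits of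
symmetries, when the sizes of these orbits avoid a set of integers of small density.
-/

set_option autoImplicit false

namespace Pool.Agent.Results.MP_e5d384_lc.OrbitSizes

open Real

/-- the real `0/1` matrix of `F` -/
def realMatrix {X Y : Type} (F : X → Y → Bool) : Matrix X Y ℝ :=
  Matrix.of fun x y => if F x y then (1 : ℝ) else 0

/-- `F` has a deterministic protocol with `c` bits: in every round the owner of the current
transcript appends a bit, which depends only on the owner's input and on the transcript, and the
transcript of length `c` determines the value. -/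
def HasProtocol {X Y : Type} (F : X → Y → Bool) (c : ℕ) : Prop :=
  ∃ (owner : List Bool → Bool) (a : List Bool → X → Bool) (b : List Bool → Y → Bool)
    (out : List Bool → Bool), ∀ x y,
    out (Nat.iterate (fun t : List Bool => t ++ [if owner t then a t x else b t y]) c []) = F x y

/-- `G` consists of symmetries of `F`: pairs of permutations which preserve `F`. -/
def Preserves {X Y : Type} (G : Subgroup (Equiv.Perm X × Equiv.Perm Y)) (F : X → Y → Bool) :
    Prop :=
  ∀ g ∈ G, ∀ x y, F (g.1 x) (g.2 y) = F x y

/-- For all matrices `F` of real rank `r > 1` without repeated rows, and all groups `G` of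
symmetries of `F`:
* if every row lies in the `G`-orbit of one of the rows `u ∈ T`, and no size of these orbits is in
  `E`, then `F` has a protocol with at most `(log |T| + b r) / log 2 + 2` bits;
* if `F` has no repeated columns either, every one of `F` lies in the `G`-orbit of one of the
  cells `u ∈ T`, and no size of these orbits is in `E`, then `F` has a protocol with at most
  `(log |T| + b r) / log 2 + 3` bits. -/
def Communication (E : Set ℕ) (b : ℝ → ℝ) : Prop :=
  ∀ (X Y : Type) [Fintype X] [Fintype Y] (F : X → Y → Bool), Function.Injective F →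
    1 < (realMatrix F).rank →
    ∀ G : Subgroup (Equiv.Perm X × Equiv.Perm Y), Preserves G F →
      (∀ T : Finset X, (∀ x, ∃ u ∈ T, ∃ g ∈ G, g.1 u = x) →
        (∀ u ∈ T, Set.ncard {x | ∃ g ∈ G, g.1 u = x} ∉ E) →
        ∃ c : ℕ, HasProtocol F c ∧
          (c : ℝ) ≤ (log T.card + b (realMatrix F).rank) / log 2 + 2) ∧
      (Function.Injective (fun y x => F x y) →
        ∀ T : Finset (X × Y),
        (∀ x y, F x y = true → ∃ u ∈ T, ∃ g ∈ G, (g.1 u.1, g.2 u.2) = (x, y)) →
        (∀ u ∈ T, Set.ncard {z : X × Y | ∃ g ∈ G, (g.1 u.1, g.2 u.2) = z} ∉ E) →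
        ∃ c : ℕ, HasProtocol F c ∧
          (c : ℝ) ≤ (log T.card + b (realMatrix F).rank) / log 2 + 3)

open Classical in
/-- (1) All primes dividing the order of a group of symmetries of a Boolean matrix of rank `r`
without repeated rows and columns are at most `r + 1`.
(2) For every `η > 0` there are `C` and a set `E` of positive integers with at most `η x` elements
up to `x`, for all `x`, such that `Communication E (C log r)`.
(3) For every `c > 2` there is a set `E` with at most `x exp (-(log x) ^ (1 - 1 / c) / 2)` elements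
up to `x`, for large `x`, such that `Communication E ((2 log r) ^ c)`.
(4) For every `A ≥ 2` there is a set `E` with at most `x ^ (1 - 1 / A + ε)` elements up to `x`, for
large `x` and every `ε > 0`, such that `Communication E ((r + 1) ^ (1 / A))`. -/
theorem result :
    (∀ (X Y : Type) [Fintype X] [Fintype Y] (F : X → Y → Bool), Function.Injective F →
      Function.Injective (fun y x => F x y) →
      ∀ G : Subgroup (Equiv.Perm X × Equiv.Perm Y), Preserves G F →
      ∀ p : ℕ, p.Prime → p ∣ Nat.card G → p ≤ (realMatrix F).rank + 1) ∧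
    (∀ η : ℝ, 0 < η → ∃ (C : ℝ) (E : Set ℕ),
      (∀ x : ℕ, (((Finset.Ioc 0 x).filter (fun n => n ∈ E)).card : ℝ) ≤ η * x) ∧
      Communication E (fun r => C * log r)) ∧
    (∀ c : ℝ, 2 < c → ∃ E : Set ℕ,
      (∃ x0 : ℕ, ∀ x : ℕ, x0 ≤ x →
        (((Finset.Ioc 0 x).filter (fun n => n ∈ E)).card : ℝ) ≤
          x * exp (-(log x) ^ (1 - 1 / c) / 2)) ∧
      Communication E (fun r => (2 * log r) ^ c)) ∧
    (∀ A : ℝ, 2 ≤ A → ∃ E : Set ℕ,
      (∀ ε : ℝ, 0 < ε → ∃ x0 : ℕ, ∀ x : ℕ, x0 ≤ x →
        (((Finset.Ioc 0 x).filter (fun n => n ∈ E)).card : ℝ) ≤ (x : ℝ) ^ (1 - 1 / A + ε)) ∧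
      Communication E (fun r => (r + 1) ^ (1 / A))) := by
  have key : ∀ (E : Set ℕ) (b : ℝ → ℝ), Pool.Agent.Q330.LRM.NumBound E b →
      Communication E b := by
    intro E b hE X Y _ _ F hF hr G hG
    have hX : 1 ≤ Fintype.card X := by
      by_contra hcon
      have h0 : Fintype.card X = 0 := by omega
      have h1 := Matrix.rank_le_card_height (realMatrix F)
      omega
    refine ⟨fun T hT hTE => ?_, fun hF' T hT hTE => ?_⟩
    · obtain ⟨_, h2⟩ := Pool.Agent.Q330.LRM.log_card_rows hE F hF hr G hG T hT hTE hX
      obtain ⟨c, owner, a, b', out, h3, h4⟩ :=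
        Pool.Agent.Q330.LRM.protocol_of_log F hX _ h2
      exact ⟨c, ⟨owner, a, b', out, h3⟩, h4⟩
    · have hone : ∃ x y, F x y = true := by
        by_contra hcon
        push Not at hcon
        have h0 : realMatrix F = 0 := by
          ext x y
          have := hcon x y
          simp only [Bool.not_eq_true] at this
          simp [realMatrix, this]
        rw [h0, Matrix.rank_zero] at hr
        omega
      obtain ⟨_, h2⟩ := Pool.Agent.Q330.LRM.log_card_cells hE F hF hF' hr G hG T hT hTE hX hone
      obtain ⟨c, owner, a, b', out, h3, h4⟩ :=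
        Pool.Agent.Q330.LRM.protocol_of_log F hX _ h2
      refine ⟨c, ⟨owner, a, b', out, h3⟩, h4.trans (le_of_eq ?_)⟩
      have hl2 : log (2 : ℝ) ≠ 0 := (log_pos (by norm_num)).ne'
      rw [add_div _ (log 2) (log 2), div_self hl2]
      change _ = (log T.card + b (Pool.Agent.Q330.LRM.mat ℝ F).rank) / log 2 + 3
      ring
  refine ⟨fun X Y _ _ F hF hF' G hG p hp hd =>
    Pool.Agent.Q330.LRM.group_prime F hF hF' G hG p hp hd, fun η hη => ?_, fun c hc => ?_,
    fun A hA => ?_⟩
  · obtain ⟨C, E, h1, h2⟩ := Pool.Agent.Q330.LRM.poly η hη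
    exact ⟨C, E, h1, key E _ h2⟩
  · obtain ⟨E, h1, h2⟩ := Pool.Agent.Q330.LRM.quasi c hc
    exact ⟨E, h1, key E _ h2⟩
  · obtain ⟨E, h1, h2⟩ := Pool.Agent.Q330.LRM.power A hA
    exact ⟨E, h1, key E _ h2⟩

end Pool.Agent.Results.MP_e5d384_lc.OrbitSizes
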