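import Pool.Agent.Q274.LR.Main
import Pool.Agent.Q274.LR.TW

set_option autoImplicit false

namespace Pool.Agent.Results.MP_e5d384_lc.TwinWidthLogRank

open Pool.Agent.H630R2.LR Pool.Agent.Y422.TW

/-- **Log-rank for matrices of bounded twin-width.**  Let `F` be a matrix whose entries are
adjacencies of a graph `G` of twin-width at most `w` (rows and columns being given by arbitrary maps
into the vertices).  If `r` is the real rank of `F` then some deterministic protocol computes `F`
with at most `1 + 2 * ⌈log₂ (4 (w + 2) r + 3)⌉ * ⌈log₂ (r + 1)⌉` bits. -/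
theorem result {V X Y : Type} [Fintype V] [Fintype X] [Fintype Y] (G : SimpleGraph V) (w : ℕ)
    (hw : TwinWidthLE G w) (f : X → V) (g : Y → V) (F : X → Y → Bool)
    (hF : ∀ x y, F x y = true ↔ G.Adj (f x) (g y)) :
    Proto F (1 + 2 * Nat.clog 2 (4 * (w + 2) * (comm F).rank + 3) *
      Nat.clog 2 ((comm F).rank + 1)) := by
  have h := Pool.Agent.Q274.LR.proto_of_rect F _ (Pool.Agent.Q274.LR.rect_of_tww G w hw f g F hF)
  have e : 2 * (2 * (w + 2)) * (comm F).rank = 4 * (w + 2) * (comm F).rank := by ring
  rw [e] at h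
  exact h

end Pool.Agent.Results.MP_e5d384_lc.TwinWidthLogRank
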