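import Pool.Agent.Q295.LR.Cop

/-!
# The log-rank conjecture: counterexamples contain all small matrices, everywhere

The log-rank conjecture says that the deterministic communication complexity `D(F)` of a Boolean
matrix `F` is at most polynomial in `log rank F`. We prove that a Boolean matrix whose
communication complexity is not linear in `log rank F` contains every small Boolean matrix as a
submatrix, and in a robust way: in one leaf of every given protocol, and outside of any given small
set of rows and columns. Hence the conjecture holds, with exponent one, for every class of Boolean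
matrices which is closed under submatrices and is not the class of all Boolean matrices, and for
the matrices whose subdeterminants are bounded by a quasipolynomial in the rank. The rank may be
taken over an arbitrary field (over a finite field there is no such bound for all matrices).

Proof. In every leaf take rows of `F` which form a basis of the span of the rows of the leaf. If
they have no shattered subset with `d` elements, then the columns form at most
`(rank + 1) ^ (d - 1)` classes in the leaf, by the lemma of Sauer and Shelah, and two columns of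
the same class agree in all rows of the leaf. If there is a shattered subset, the leaf contains all
the small matrices.
-/

set_option autoImplicit false

namespace Pool.Agent.Results.MP_e5d384_lc.UniversalSubmatrices

/-- the `0/1` matrix of `F` over the field `K` -/
def matrixOver (K : Type) [Field K] {X Y : Type} (F : X → Y → Bool) : Matrix X Y K :=
  Matrix.of fun x y => if F x y then (1 : K) else 0

/-- the transcript after `c` rounds: in every round the owner of the current transcript appends a
bit, which depends only on the owner's input and on the transcript -/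
def transcript {X Y : Type} (owner : List Bool → Bool) (a : List Bool → X → Bool)
    (b : List Bool → Y → Bool) (c : ℕ) (x : X) (y : Y) : List Bool :=
  Nat.iterate (fun t : List Bool => t ++ [if owner t then a t x else b t y]) c []

/-- `F` has a deterministic protocol with `c` bits -/
def HasProtocol {X Y : Type} (F : X → Y → Bool) (c : ℕ) : Prop :=
  ∃ (owner : List Bool → Bool) (a : List Bool → X → Bool) (b : List Bool → Y → Bool)
    (out : List Bool → Bool), ∀ x y, out (transcript owner a b c x y) = F x y

/-- the `m × n` matrix `A` has size at most `d`: it has at most `d` rows and pairwise different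
columns, or `m + ⌈log₂ n⌉ ≤ d` -/
def Small (d : ℕ) {m n : ℕ} (A : Fin m → Fin n → Bool) : Prop :=
  m + Nat.clog 2 n ≤ d ∨ (m ≤ d ∧ Function.Injective fun q p => A p q)

/-- `A` is the submatrix of `F` with the rows `i p` and the columns `j q` -/
def IsCopy {X Y : Type} (F : X → Y → Bool) {m n : ℕ} (A : Fin m → Fin n → Bool)
    (i : Fin m → X) (j : Fin n → Y) : Prop :=
  Function.Injective i ∧ Function.Injective j ∧ ∀ p q, F (i p) (j q) = A p q

/-- Let `F` be a Boolean matrix, `r` its rank over a field `K` and `L = ⌈log₂ (r + 1)⌉`.

1. If `F` has no protocol with `c + (d - 1) L + 1` bits, then every protocol with `c` bits has a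
   leaf which contains all Boolean matrices of size at most `d`, and (if `3 k ≤ d`) a square
   submatrix with determinant `2 ^ k`.
2. If `F` has no protocol with `2 + e + (d - 1) L + 1` bits, then outside of any `2 ^ e` rows and
   `2 ^ e` columns `F` contains all Boolean matrices of size at most `d` with at least two rows and
   two columns.
3. If `F` does not contain the `m × n` matrix `A`, then `F` has a protocol with
   `(m + ⌈log₂ n⌉ - 1) L + 1` bits.
4. If the absolute values of all subdeterminants of `F` are less than `2 ^ k`, then `F` has a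
   protocol with `(3 k - 1) L + 1` bits. -/
theorem result :
    (∀ (X Y : Type) [Fintype X] [Fintype Y] (F : X → Y → Bool) (K : Type) [Field K],
      (∀ (c d : ℕ) (owner : List Bool → Bool) (a : List Bool → X → Bool)
        (b : List Bool → Y → Bool), 1 ≤ d →
        ¬ HasProtocol F (c + (d - 1) * Nat.clog 2 ((matrixOver K F).rank + 1) + 1) →
        ∃ w : List Bool,
          (∀ (m n : ℕ) (A : Fin m → Fin n → Bool), Small d A →
            ∃ (i : Fin m → X) (j : Fin n → Y), IsCopy F A i j ∧
              ∀ p q, transcript owner a b c (i p) (j q) = w) ∧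
          (∀ k : ℕ, 3 * k ≤ d → ∃ (i : Fin (3 * k) → X) (j : Fin (3 * k) → Y),
            (Matrix.of fun p q => if F (i p) (j q) then (1 : ℤ) else 0).det = 2 ^ k ∧
              ∀ p q, transcript owner a b c (i p) (j q) = w)) ∧
      (∀ (d e : ℕ), 1 ≤ d →
        ¬ HasProtocol F (2 + e + (d - 1) * Nat.clog 2 ((matrixOver K F).rank + 1) + 1) →
        ∀ (S : Finset X) (T : Finset Y), S.card ≤ 2 ^ e → T.card ≤ 2 ^ e →
        ∀ (m n : ℕ) (A : Fin m → Fin n → Bool), 2 ≤ m → 2 ≤ n → Small d A →
          ∃ (i : Fin m → X) (j : Fin n → Y), IsCopy F A i j ∧ (∀ p, i p ∉ S) ∧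
            ∀ q, j q ∉ T) ∧
      (∀ (m n : ℕ) (A : Fin m → Fin n → Bool), (¬ ∃ i j, IsCopy F A i j) →
        HasProtocol F ((m + Nat.clog 2 n - 1) * Nat.clog 2 ((matrixOver K F).rank + 1) + 1)) ∧
      (∀ k : ℕ, (∀ (s : ℕ) (i : Fin s → X) (j : Fin s → Y),
          |(Matrix.of fun p q => if F (i p) (j q) then (1 : ℤ) else 0).det| < 2 ^ k) →
        HasProtocol F ((3 * k - 1) * Nat.clog 2 ((matrixOver K F).rank + 1) + 1))) ∧
    -- the conjecture, with exponent one, for all proper classes closed under submatrices
    (∀ C : ∀ X Y : Type, (X → Y → Bool) → Prop,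
      (∀ (X Y : Type) (F : X → Y → Bool), C X Y F → ∀ (m n : ℕ) (i : Fin m → X) (j : Fin n → Y),
        Function.Injective i → Function.Injective j →
        C (Fin m) (Fin n) fun p q => F (i p) (j q)) →
      (∃ (m n : ℕ) (A : Fin m → Fin n → Bool), ¬ C (Fin m) (Fin n) A) →
      ∃ D : ℕ, ∀ (X Y : Type) [Fintype X] [Fintype Y] (F : X → Y → Bool), C X Y F →
        ∀ (K : Type) [Field K],
          HasProtocol F (D * Nat.clog 2 ((matrixOver K F).rank + 1) + 1)) := by
  have part1 : ∀ (X Y : Type) [Fintype X] [Fintype Y] (F : X → Y → Bool) (K : Type) [Field K]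
      (c d : ℕ) (owner : List Bool → Bool) (a : List Bool → X → Bool)
        (b : List Bool → Y → Bool), 1 ≤ d →
        ¬ HasProtocol F (c + (d - 1) * Nat.clog 2 ((matrixOver K F).rank + 1) + 1) →
        ∃ w : List Bool,
          (∀ (m n : ℕ) (A : Fin m → Fin n → Bool), Small d A →
            ∃ (i : Fin m → X) (j : Fin n → Y), IsCopy F A i j ∧
              ∀ p q, transcript owner a b c (i p) (j q) = w) ∧
          (∀ k : ℕ, 3 * k ≤ d → ∃ (i : Fin (3 * k) → X) (j : Fin (3 * k) → Y),
            (Matrix.of fun p q => if F (i p) (j q) then (1 : ℤ) else 0).det = 2 ^ k ∧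
              ∀ p q, transcript owner a b c (i p) (j q) = w) := by
    intro X Y _ _ F K _ c d owner a b hd h
    obtain ⟨w, hw⟩ := Pool.Agent.Q295.LR.leaf_copies (K := K) F owner a b c d hd h
    refine ⟨w, ?_, ?_⟩
    · intro m n A hA
      obtain ⟨i, j, hi, hj, hr, hF⟩ := hw m n A hA
      exact ⟨i, j, ⟨hi, hj, hF⟩, hr⟩
    · intro k hk
      obtain ⟨i, j, hi, hj, hr, hF⟩ := hw _ _ (Pool.Agent.Q295.LR.blkB k)
        (Or.inr ⟨hk, Pool.Agent.Q295.LR.blkB_inj k⟩)
      refine ⟨i, j, ?_, hr⟩
      rw [← Pool.Agent.Q295.LR.det_blk k]
      congr 1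
      ext p q
      rw [Matrix.of_apply, hF, Pool.Agent.Q295.LR.blkB_spec]
  have part3 : ∀ (X Y : Type) [Fintype X] [Fintype Y] (F : X → Y → Bool) (K : Type) [Field K]
      (m n : ℕ) (A : Fin m → Fin n → Bool), (¬ ∃ i j, IsCopy F A i j) →
        HasProtocol F ((m + Nat.clog 2 n - 1) * Nat.clog 2 ((matrixOver K F).rank + 1) + 1) := by
    intro X Y _ _ F K _ m n A hA
    by_contra hcon
    apply hA
    have hcon' : ¬ HasProtocol F (0 + (max 1 (m + Nat.clog 2 n) - 1) *
        Nat.clog 2 ((matrixOver K F).rank + 1) + 1) := by
      have : max 1 (m + Nat.clog 2 n) - 1 = m + Nat.clog 2 n - 1 := by omega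
      rw [this, Nat.zero_add]
      exact hcon
    obtain ⟨w, hw, -⟩ := part1 X Y F K 0 (max 1 (m + Nat.clog 2 n)) (fun _ => true)
      (fun _ _ => true) (fun _ _ => true) (le_max_left _ _) hcon'
    obtain ⟨i, j, hij, -⟩ := hw m n A (Or.inl (le_max_right _ _))
    exact ⟨i, j, hij⟩
  refine ⟨?_, ?_⟩
  · intro X Y _ _ F K _
    refine ⟨part1 X Y F K, ?_, part3 X Y F K, ?_⟩
    · intro d e hd h S T hS hT m n A hm hn hA
      obtain ⟨i, j, hi, hj, h1, h2, h3⟩ := Pool.Agent.Q295.LR.outside (K := K) F e d hd h S T hS hT
        m n hm hn A hA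
      exact ⟨i, j, ⟨hi, hj, h3⟩, h1, h2⟩
    · intro k hk
      have hk0 : 1 ≤ k := by
        by_contra hcon
        have : k = 0 := by omega
        subst this
        have h1 := hk 0 Fin.elim0 Fin.elim0
        rw [Matrix.det_fin_zero] at h1
        norm_num at h1
      by_contra hcon
      have hcon' : ¬ HasProtocol F (0 + (3 * k - 1) *
          Nat.clog 2 ((matrixOver K F).rank + 1) + 1) := by
        rw [Nat.zero_add]
        exact hcon
      obtain ⟨w, -, hw⟩ := part1 X Y F K 0 (3 * k) (fun _ => true) (fun _ _ => true)
        (fun _ _ => true) (by omega) hcon'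
      obtain ⟨i, j, hij, -⟩ := hw k le_rfl
      have h1 := hk _ i j
      rw [hij, abs_of_nonneg (by positivity)] at h1
      exact lt_irrefl _ h1
  · intro C hC hA
    obtain ⟨m, n, A, hA⟩ := hA
    refine ⟨m + Nat.clog 2 n - 1, fun X Y _ _ F hF K _ => part3 X Y F K m n A ?_⟩
    rintro ⟨i, j, hi, hj, hij⟩
    apply hA
    have h1 := hC X Y F hF m n i j hi hj
    have h2 : (fun p q => F (i p) (j q)) = A := by
      funext p q
      exact hij p q
    rw [h2] at h1
    exact h1

end Pool.Agent.Results.MP_e5d384_lc.UniversalSubmatrices
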